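import Pool.Agent.MVS.Stmts

/-! Row SDF of the squad MVS (MP_33f2b9_gt): Gram matrices. -/

noncomputable section

open scoped ContDiff Topology RealInnerProductSpace
open Set

namespace Pool.Agent.MVS.H14

open Pool.Agent.RF Pool.Agent.MVS

variable {ι : Type} [Fintype ι] [DecidableEq ι]

theorem eb_sum (v : E ι) : v = ∑ i, v i • (eb i : E ι) := by
  ext j
  rw [WithLp.ofLp_sum, Finset.sum_apply]
  simp [eb, Pi.single_apply]

theorem B_expand (B : Bil (E ι)) (v w : E ι) :
    B v w = ∑ i, ∑ j, v i * w j * B (eb i) (eb j) := by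
  have h1 : B v = ∑ i, v i • B (eb i) := by
    conv_lhs => rw [eb_sum v]
    rw [map_sum]
    exact Finset.sum_congr rfl fun i _ => map_smul _ _ _
  have h2 : ∀ i, B (eb i) w = ∑ j, w j * B (eb i) (eb j) := by
    intro i
    conv_lhs => rw [eb_sum w]
    rw [map_sum]
    exact Finset.sum_congr rfl fun j _ => by rw [map_smul, smul_eq_mul]
  rw [h1, _root_.sum_apply]
  refine Finset.sum_congr rfl fun i _ => ?_
  rw [_root_.smul_apply, smul_eq_mul, h2, Finset.mul_sum]
  refine Finset.sum_congr rfl fun j _ => ?_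
  ring

theorem gm_apply (B : Bil (E ι)) (i j : ι) : gm B i j = B (eb i) (eb j) := rfl

theorem gm_posDef (B : Bil (E ι)) (hs : ∀ v w, B v w = B w v) (hp : ∀ v, v ≠ 0 → 0 < B v v) :
    (gm B).PosDef := by
  refine Matrix.PosDef.of_dotProduct_mulVec_pos ?_ ?_
  · ext i j
    simp [gm_apply, hs (eb j) (eb i)]
  · intro x hx
    have hv : (WithLp.toLp 2 x : E ι) ≠ 0 := by
      intro h
      apply hx
      funext i
      have := congrArg (fun u : E ι => u i) h
      simpa using this
    have := hp _ hv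
    rw [B_expand] at this
    have e : star x ⬝ᵥ (gm B).mulVec x = ∑ i, ∑ j,
        (WithLp.toLp 2 x : E ι) i * (WithLp.toLp 2 x : E ι) j * B (eb i) (eb j) := by
      simp only [dotProduct, Matrix.mulVec, Finset.mul_sum]
      refine Finset.sum_congr rfl fun i _ => Finset.sum_congr rfl fun j _ => ?_
      simp only [Pi.star_apply, star_trivial, gm_apply]
      ring
    rw [e]
    exact this

/-- the matrix of a linear map in the standard basis -/
def mt (D : E ι →L[ℝ] E ι) : Matrix ι ι ℝ := Matrix.of fun k i => (D (eb i)) k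

theorem mt_det (D : E ι →L[ℝ] E ι) :
    LinearMap.det ((D : E ι →L[ℝ] E ι) : E ι →ₗ[ℝ] E ι) = (mt D).det := by
  rw [← LinearMap.det_toMatrix (EuclideanSpace.basisFun ι ℝ).toBasis]
  congr 1

theorem gm_comp (B : Bil (E ι)) (D : E ι →L[ℝ] E ι) :
    gm (B.bilinearComp D D) = (mt D).transpose * gm B * mt D := by
  ext i j
  rw [gm_apply, ContinuousLinearMap.bilinearComp_apply, B_expand, Matrix.mul_apply]
  simp only [Matrix.mul_apply, Matrix.transpose_apply, Finset.sum_mul]
  rw [Finset.sum_comm]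
  refine Finset.sum_congr rfl fun l _ => Finset.sum_congr rfl fun k _ => ?_
  simp only [mt, Matrix.of_apply, gm_apply]
  ring

theorem sd_comp (B : Bil (E ι)) (D : E ι →L[ℝ] E ι) : sd (B.bilinearComp D D) =
    |LinearMap.det ((D : E ι →L[ℝ] E ι) : E ι →ₗ[ℝ] E ι)| * sd B := by
  unfold sd
  rw [gm_comp, Matrix.det_mul, Matrix.det_mul, Matrix.det_transpose, mt_det]
  have e : (mt D).det * (gm B).det * (mt D).det = (mt D).det ^ 2 * (gm B).det := by ring
  rw [e, Real.sqrt_mul (sq_nonneg _), Real.sqrt_sq_eq_abs]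

theorem sd_smul (c : ℝ) (B : Bil (E ι)) (hc : 0 ≤ c) :
    sd (c ^ 2 • B) = c ^ Fintype.card ι * sd B := by
  unfold sd
  have e : gm (c ^ 2 • B) = (c ^ 2) • gm B := by
    ext i j
    rfl
  rw [e, Matrix.det_smul]
  have e2 : (c ^ 2) ^ Fintype.card ι = (c ^ Fintype.card ι) ^ 2 := by
    rw [← pow_mul, ← pow_mul, mul_comm]
  rw [e2, Real.sqrt_mul (sq_nonneg _), Real.sqrt_sq (pow_nonneg hc _)]

theorem sd_cont : Continuous (fun B : Bil (E ι) => sd B) := by
  unfold sd
  refine Real.continuous_sqrt.comp (Continuous.matrix_det ?_)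
  refine continuous_matrix fun i j => ?_
  change Continuous fun B : Bil (E ι) => B (eb i) (eb j)
  exact (continuous_id.clm_apply continuous_const).clm_apply continuous_const

theorem sdf : SdfStatement := by
  intro ι _ _
  refine ⟨fun B hs hp => (gm_posDef B hs hp).det_pos, sd_comp, fun c B hc => sd_smul c B hc, ?_⟩
  intro G U h
  exact sd_cont.comp_continuousOn h.smooth.continuousOn

end Pool.Agent.MVS.H14
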